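import Mathlib

/-!
# Dimension of products of subspaces

`v` is a valuation of the field `K` with residue field `F`: the dimension of a subspace is the
number of its values, hence `dim U + dim W ≤ dim (U W) + 1`.
-/

set_option autoImplicit false

open Module Finset
open scoped Pointwise

namespace Pool.Agent.QD.H86

variable {F K : Type*} [Field F] [Field K] [Algebra F K]

/-- the values of the nonzero elements -/
def vals (v : AddValuation K (WithTop ℤ)) (U : Submodule F K) : Set ℤ :=
  {n | ∃ u ∈ U, v u = (n : WithTop ℤ)}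

variable {v : AddValuation K (WithTop ℤ)}

theorem card_le_finrank (hF : ∀ c : F, c ≠ 0 → v (algebraMap F K c) = 0) (U : Submodule F K)
    [FiniteDimensional F U] (s : Finset ℤ) (hs : ∀ n ∈ s, n ∈ vals v U) :
    s.card ≤ finrank F U := by
  classical
  choose g hgU hgv using hs
  let f : s → U := fun n => ⟨g n.1 n.2, hgU n.1 n.2⟩
  have hli : LinearIndependent F f := by
    rw [linearIndependent_iff']
    intro t c hc n hn
    by_contra hcn
    have hne : (t.filter fun m => c m ≠ 0).Nonempty := ⟨n, mem_filter.2 ⟨hn, hcn⟩⟩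
    obtain ⟨m, hm, hmin⟩ := exists_min_image _ (fun m : s => (m : ℤ)) hne
    obtain ⟨hmt, hcm⟩ := mem_filter.1 hm
    have hvm : v (c m • (f m : K)) = ((m : ℤ) : WithTop ℤ) := by
      rw [Algebra.smul_def, AddValuation.map_mul, hF _ hcm, zero_add]
      exact hgv m.1 m.2
    have hsum : (c m • (f m : K)) + ∑ k ∈ t.erase m, c k • (f k : K) = 0 := by
      rw [add_sum_erase _ (fun k => c k • (f k : K)) hmt]
      have := congrArg (Subtype.val) hc
      simpa using this
    have hrest : ((m : ℤ) : WithTop ℤ) < v (∑ k ∈ t.erase m, c k • (f k : K)) := by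
      refine AddValuation.map_lt_sum _ (WithTop.coe_ne_top) fun k hk => ?_
      by_cases hck : c k = 0
      · rw [hck, zero_smul, AddValuation.map_zero]
        exact WithTop.coe_lt_top _
      · rw [Algebra.smul_def, AddValuation.map_mul, hF _ hck, zero_add]
        have h1 : v (f k : K) = ((k : ℤ) : WithTop ℤ) := hgv k.1 k.2
        rw [h1, WithTop.coe_lt_coe]
        have h2 := hmin k (mem_filter.2 ⟨mem_of_mem_erase hk, hck⟩)
        refine lt_of_le_of_ne h2 fun e => ?_
        exact (ne_of_mem_erase hk) (Subtype.ext e.symm)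
    rw [eq_neg_of_add_eq_zero_left hsum, AddValuation.map_neg] at hvm
    rw [hvm] at hrest
    exact lt_irrefl _ hrest
  have := hli.fintype_card_le_finrank
  simpa using this

theorem vals_finite (hF : ∀ c : F, c ≠ 0 → v (algebraMap F K c) = 0) (U : Submodule F K)
    [FiniteDimensional F U] : (vals v U).Finite := by
  by_contra h
  obtain ⟨t, ht, hc⟩ := Set.Infinite.exists_subset_card_eq (s := vals v U) h (finrank F U + 1)
  have := card_le_finrank hF U t fun n hn => ht hn
  omega

theorem finrank_le_card (hF : ∀ c : F, c ≠ 0 → v (algebraMap F K c) = 0)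
    (hres : ∀ a b : K, b ≠ 0 → v a = v b → ∃ c : F, v b < v (a - algebraMap F K c * b)) :
    ∀ (k : ℕ) (s : Finset ℤ), s.card = k → ∀ (U : Submodule F K) [FiniteDimensional F U],
      (∀ n ∈ vals v U, n ∈ s) → finrank F U ≤ k := by
  classical
  intro k
  induction k with
  | zero =>
    intro s hs U _ h
    rw [card_eq_zero] at hs
    subst hs
    have : U = ⊥ := by
      rw [Submodule.eq_bot_iff]
      intro u hu
      by_contra h0
      have hv : v u ≠ ⊤ := fun e => h0 (AddValuation.top_iff v |>.1 e)
      obtain ⟨n, hn⟩ := WithTop.ne_top_iff_exists.1 hv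
      have := h n ⟨u, hu, hn.symm⟩
      simp at this
    rw [this, finrank_bot]
  | succ k ih =>
    intro s hs U _ h
    have hne : s.Nonempty := by rw [← card_pos]; omega
    set n0 := s.min' hne with hn0
    let U' : Submodule F K :=
      { carrier := {u | u ∈ U ∧ ((n0 : ℤ) : WithTop ℤ) < v u}
        add_mem' := by
          rintro a b ⟨ha, ha'⟩ ⟨hb, hb'⟩
          exact ⟨U.add_mem ha hb, AddValuation.map_lt_add v ha' hb'⟩
        zero_mem' := ⟨U.zero_mem, by rw [AddValuation.map_zero]; exact WithTop.coe_lt_top _⟩
        smul_mem' := by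
          rintro c a ⟨ha, ha'⟩
          refine ⟨U.smul_mem c ha, ?_⟩
          by_cases hc : c = 0
          · rw [hc, zero_smul, AddValuation.map_zero]
            exact WithTop.coe_lt_top _
          · rw [Algebra.smul_def, AddValuation.map_mul, hF _ hc, zero_add]
            exact ha' }
    have hU'U : U' ≤ U := fun u hu => hu.1
    have : FiniteDimensional F U' := Submodule.finiteDimensional_of_le hU'U
    have h1 : finrank F U' ≤ k := by
      refine ih (s.erase n0) (by rw [card_erase_of_mem (s.min'_mem hne)]; omega) U' ?_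
      rintro n ⟨u, hu, hv⟩
      rw [mem_erase]
      refine ⟨?_, h n ⟨u, hU'U hu, hv⟩⟩
      rintro rfl
      have := hu.2
      rw [hv] at this
      exact lt_irrefl _ this
    have hval : ∀ u ∈ U, u ≠ 0 → u ∉ U' → v u = ((n0 : ℤ) : WithTop ℤ) := by
      intro u hu h0 hu'
      have hv : v u ≠ ⊤ := fun e => h0 (AddValuation.top_iff v |>.1 e)
      obtain ⟨n, hn⟩ := WithTop.ne_top_iff_exists.1 hv
      have h2 := h n ⟨u, hu, hn.symm⟩
      have h3 : n0 ≤ n := s.min'_le n h2
      rcases h3.lt_or_eq with h4 | h4
      · exfalso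
        apply hu'
        refine ⟨hu, ?_⟩
        rw [← hn]
        exact WithTop.coe_lt_coe.2 h4
      · rw [← hn, ← h4]
    by_cases hex : ∃ u0 ∈ U, u0 ≠ 0 ∧ u0 ∉ U'
    · obtain ⟨u0, hu0, h00, hu0'⟩ := hex
      have hle : U ≤ U' ⊔ Submodule.span F {u0} := by
        intro u hu
        by_cases hu' : u ∈ U'
        · exact Submodule.mem_sup_left hu'
        by_cases h0 : u = 0
        · rw [h0]; exact Submodule.zero_mem _
        have e1 := hval u hu h0 hu'
        have e2 := hval u0 hu0 h00 hu0'
        obtain ⟨c, hc⟩ := hres u u0 h00 (e1.trans e2.symm)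
        rw [e2] at hc
        have h5 : u - algebraMap F K c * u0 ∈ U' := by
          refine ⟨U.sub_mem hu ?_, hc⟩
          rw [← Algebra.smul_def]
          exact U.smul_mem c hu0
        have h6 : u = (u - algebraMap F K c * u0) + c • u0 := by
          rw [Algebra.smul_def]; ring
        rw [h6]
        exact Submodule.add_mem_sup h5 (Submodule.smul_mem _ _ (Submodule.mem_span_singleton_self _))
      calc finrank F U ≤ finrank F (U' ⊔ Submodule.span F {u0} : Submodule F K) :=
            Submodule.finrank_mono hle
        _ ≤ finrank F U' + finrank F (Submodule.span F {u0}) :=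
            Submodule.finrank_add_le_finrank_add_finrank _ _
        _ ≤ k + 1 := by
            have : finrank F (Submodule.span F {u0}) ≤ 1 := by
              have := finrank_span_le_card (R := F) ({u0} : Set K)
              simpa using this
            omega
    · push Not at hex
      have hle : U ≤ U' := by
        intro u hu
        by_cases h0 : u = 0
        · rw [h0]; exact U'.zero_mem
        · exact hex u hu h0
      have := Submodule.finrank_mono hle
      omega

/-- the dimension of a product of two subspaces -/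
theorem dim_mul (hF : ∀ c : F, c ≠ 0 → v (algebraMap F K c) = 0)
    (hres : ∀ a b : K, b ≠ 0 → v a = v b → ∃ c : F, v b < v (a - algebraMap F K c * b))
    (U W : Submodule F K) [FiniteDimensional F U] [FiniteDimensional F W] (hU : U ≠ ⊥)
    (hW : W ≠ ⊥) :
    finrank F U + finrank F W ≤ finrank F (U * W : Submodule F K) + 1 := by
  classical
  have fU := vals_finite hF U
  have fW := vals_finite hF W
  have key : ∀ V : Submodule F K, V ≠ ⊥ → (vals v V).Nonempty := by
    intro V hV
    obtain ⟨u, hu, h0⟩ := Submodule.exists_mem_ne_zero_of_ne_bot hV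
    have hv : v u ≠ ⊤ := fun e => h0 (AddValuation.top_iff v |>.1 e)
    obtain ⟨n, hn⟩ := WithTop.ne_top_iff_exists.1 hv
    exact ⟨n, u, hu, hn.symm⟩
  have h1 : finrank F U ≤ fU.toFinset.card :=
    finrank_le_card hF hres _ _ rfl U fun n hn => fU.mem_toFinset.2 hn
  have h2 : finrank F W ≤ fW.toFinset.card :=
    finrank_le_card hF hres _ _ rfl W fun n hn => fW.mem_toFinset.2 hn
  have hUW : FiniteDimensional F (U * W : Submodule F K) :=
    Module.Finite.iff_fg.2 ((Module.Finite.iff_fg.1 ‹FiniteDimensional F U›).mul
      (Module.Finite.iff_fg.1 ‹FiniteDimensional F W›))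
  have h3 : (fU.toFinset + fW.toFinset).card ≤ finrank F (U * W : Submodule F K) := by
    refine card_le_finrank hF _ _ fun n hn => ?_
    obtain ⟨a, ha, b, hb, rfl⟩ := Finset.mem_add.1 hn
    obtain ⟨x, hx, hxv⟩ := fU.mem_toFinset.1 ha
    obtain ⟨y, hy, hyv⟩ := fW.mem_toFinset.1 hb
    refine ⟨x * y, Submodule.mul_mem_mul hx hy, ?_⟩
    rw [AddValuation.map_mul, hxv, hyv]
    rfl
  have h4 := cauchy_davenport_add_of_linearOrder_isCancelAdd
    (s := fU.toFinset) (t := fW.toFinset) (fU.toFinset_nonempty.2 (key U hU))
    (fW.toFinset_nonempty.2 (key W hW))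
  omega

end Pool.Agent.QD.H86
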