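import Mathlib

/-!
# The Ore condition from subexponential growth
-/

set_option autoImplicit false

open Module

namespace Pool.Agent.QD.H86

variable {F A : Type*} [Field F] [Ring A] [NoZeroDivisors A] [Algebra F A]

/-- If two elements have no common right multiple, the powers of the span grow exponentially. -/
theorem two_pow_le (a b : A) (ha : a ≠ 0) (hb : b ≠ 0)
    (h : ∀ c d : A, a * c = b * d → a * c = 0) (n : ℕ) :
    2 ^ n ≤ finrank F ((Submodule.span F {1, a, b} : Submodule F A) ^ n : Submodule F A) := by
  classical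
  set V : Submodule F A := Submodule.span F {1, a, b} with hV
  have hfd : ∀ n : ℕ, FiniteDimensional F (V ^ n : Submodule F A) := by
    intro n
    have : V.FG := Submodule.fg_span (by simp)
    exact Module.Finite.iff_fg.2 (this.pow n)
  have haV : a ∈ V := Submodule.subset_span (by simp)
  have hbV : b ∈ V := Submodule.subset_span (by simp)
  have h1V : (1 : A) ∈ V := Submodule.subset_span (by simp)
  have hnt : Nontrivial A := ⟨⟨a, 0, ha⟩⟩
  induction n with
  | zero =>
    rw [pow_zero, pow_zero]
    have := hfd 0
    rw [pow_zero] at this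
    have hne : (1 : Submodule F A) ≠ ⊥ := by
      intro e
      have : (1 : A) ∈ (1 : Submodule F A) := Submodule.one_le.1 le_rfl
      rw [e] at this
      exact one_ne_zero ((Submodule.mem_bot F).1 this)
    exact Submodule.one_le_finrank_iff.2 hne
  | succ n ih =>
    have f1 := hfd n
    have f2 := hfd (n + 1)
    let La : A →ₗ[F] A := LinearMap.mulLeft F a
    let Lb : A →ₗ[F] A := LinearMap.mulLeft F b
    have ia : Function.Injective La := fun x y hxy => by
      have : a * x = a * y := hxy
      exact mul_left_cancel₀ ha this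
    have ib : Function.Injective Lb := fun x y hxy => by
      have : b * x = b * y := hxy
      exact mul_left_cancel₀ hb this
    have e1 : finrank F ((V ^ n).map La) = finrank F (V ^ n : Submodule F A) :=
      (LinearEquiv.finrank_eq (Submodule.equivMapOfInjective La ia (V ^ n))).symm
    have e2 : finrank F ((V ^ n).map Lb) = finrank F (V ^ n : Submodule F A) :=
      (LinearEquiv.finrank_eq (Submodule.equivMapOfInjective Lb ib (V ^ n))).symm
    have e3 : (V ^ n).map La ⊓ (V ^ n).map Lb = ⊥ := by
      rw [Submodule.eq_bot_iff]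
      rintro x hx
      obtain ⟨⟨c, -, hc⟩, ⟨d, -, hd⟩⟩ := Submodule.mem_inf.1 hx
      have hc' : a * c = x := hc
      have hd' : b * d = x := hd
      rw [← hc']
      exact h c d (hc'.trans hd'.symm)
    have e4 := Submodule.finrank_sup_add_finrank_inf_eq ((V ^ n).map La) ((V ^ n).map Lb)
    rw [e3, finrank_bot, add_zero, e1, e2] at e4
    have e5 : (V ^ n).map La ⊔ (V ^ n).map Lb ≤ V ^ (n + 1) := by
      rw [pow_succ']
      refine sup_le ?_ ?_
      · rintro _ ⟨x, hx, rfl⟩
        exact Submodule.mul_mem_mul haV hx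
      · rintro _ ⟨x, hx, rfl⟩
        exact Submodule.mul_mem_mul hbV hx
    have e6 := Submodule.finrank_mono e5
    rw [pow_succ]
    omega

/-- If two elements have no common left multiple, the powers of the span grow exponentially. -/
theorem two_pow_le' (a b : A) (ha : a ≠ 0) (hb : b ≠ 0)
    (h : ∀ c d : A, c * a = d * b → c * a = 0) (n : ℕ) :
    2 ^ n ≤ finrank F ((Submodule.span F {1, a, b} : Submodule F A) ^ n : Submodule F A) := by
  classical
  set V : Submodule F A := Submodule.span F {1, a, b} with hV
  have hfd : ∀ n : ℕ, FiniteDimensional F (V ^ n : Submodule F A) := by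
    intro n
    have : V.FG := Submodule.fg_span (by simp)
    exact Module.Finite.iff_fg.2 (this.pow n)
  have haV : a ∈ V := Submodule.subset_span (by simp)
  have hbV : b ∈ V := Submodule.subset_span (by simp)
  have h1V : (1 : A) ∈ V := Submodule.subset_span (by simp)
  have hnt : Nontrivial A := ⟨⟨a, 0, ha⟩⟩
  induction n with
  | zero =>
    rw [pow_zero, pow_zero]
    have := hfd 0
    rw [pow_zero] at this
    have hne : (1 : Submodule F A) ≠ ⊥ := by
      intro e
      have : (1 : A) ∈ (1 : Submodule F A) := Submodule.one_le.1 le_rfl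
      rw [e] at this
      exact one_ne_zero ((Submodule.mem_bot F).1 this)
    exact Submodule.one_le_finrank_iff.2 hne
  | succ n ih =>
    have f1 := hfd n
    have f2 := hfd (n + 1)
    let La : A →ₗ[F] A := LinearMap.mulRight F a
    let Lb : A →ₗ[F] A := LinearMap.mulRight F b
    have ia : Function.Injective La := fun x y hxy => by
      have : x * a = y * a := hxy
      exact mul_right_cancel₀ ha this
    have ib : Function.Injective Lb := fun x y hxy => by
      have : x * b = y * b := hxy
      exact mul_right_cancel₀ hb this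
    have e1 : finrank F ((V ^ n).map La) = finrank F (V ^ n : Submodule F A) :=
      (LinearEquiv.finrank_eq (Submodule.equivMapOfInjective La ia (V ^ n))).symm
    have e2 : finrank F ((V ^ n).map Lb) = finrank F (V ^ n : Submodule F A) :=
      (LinearEquiv.finrank_eq (Submodule.equivMapOfInjective Lb ib (V ^ n))).symm
    have e3 : (V ^ n).map La ⊓ (V ^ n).map Lb = ⊥ := by
      rw [Submodule.eq_bot_iff]
      rintro x hx
      obtain ⟨⟨c, -, hc⟩, ⟨d, -, hd⟩⟩ := Submodule.mem_inf.1 hx
      have hc' : c * a = x := hc
      have hd' : d * b = x := hd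
      rw [← hc']
      exact h c d (hc'.trans hd'.symm)
    have e4 := Submodule.finrank_sup_add_finrank_inf_eq ((V ^ n).map La) ((V ^ n).map Lb)
    rw [e3, finrank_bot, add_zero, e1, e2] at e4
    have e5 : (V ^ n).map La ⊔ (V ^ n).map Lb ≤ V ^ (n + 1) := by
      rw [pow_succ]
      refine sup_le ?_ ?_
      · rintro _ ⟨x, hx, rfl⟩
        exact Submodule.mul_mem_mul hx haV
      · rintro _ ⟨x, hx, rfl⟩
        exact Submodule.mul_mem_mul hx hbV
    have e6 := Submodule.finrank_mono e5
    rw [pow_succ]
    omega

/-- right Ore condition: common right multiples -/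
theorem ore_right (hg : ∀ V : Submodule F A, FiniteDimensional F V → (1 : Submodule F A) ≤ V →
      ∃ n : ℕ, finrank F (V ^ n : Submodule F A) < 2 ^ n) (a b : A) (ha : a ≠ 0) (hb : b ≠ 0) :
    ∃ c d : A, a * c = b * d ∧ a * c ≠ 0 := by
  by_contra hcon
  push Not at hcon
  obtain ⟨n, hn⟩ := hg (Submodule.span F {1, a, b})
    (Module.Finite.iff_fg.2 (Submodule.fg_span (by simp)))
    (Submodule.one_le.2 (Submodule.subset_span (by simp)))
  exact absurd (two_pow_le a b ha hb hcon n) (not_le.2 hn)

/-- left Ore condition: common left multiples -/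
theorem ore_left (hg : ∀ V : Submodule F A, FiniteDimensional F V → (1 : Submodule F A) ≤ V →
      ∃ n : ℕ, finrank F (V ^ n : Submodule F A) < 2 ^ n) (a b : A) (ha : a ≠ 0) (hb : b ≠ 0) :
    ∃ c d : A, c * a = d * b ∧ c * a ≠ 0 := by
  by_contra hcon
  push Not at hcon
  obtain ⟨n, hn⟩ := hg (Submodule.span F {1, a, b})
    (Module.Finite.iff_fg.2 (Submodule.fg_span (by simp)))
    (Submodule.one_le.2 (Submodule.subset_span (by simp)))
  exact absurd (two_pow_le' a b ha hb hcon n) (not_le.2 hn)

/-- subexponential growth from the growth condition of the frozen statement -/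
theorem lt_two_pow {f : ℕ → ℕ} {r : ℝ} (h : ∀ᶠ n : ℕ in Filter.atTop, (f n : ℝ) ≤ (n : ℝ) ^ r) :
    ∃ n : ℕ, f n < 2 ^ n := by
  have h1 : Filter.Tendsto (fun x : ℝ => x ^ r / Real.exp ((Real.log 2) * x)) Filter.atTop
      (nhds 0) := by
    have := tendsto_rpow_mul_exp_neg_mul_atTop_nhds_zero r (Real.log 2) (Real.log_pos one_lt_two)
    refine this.congr fun x => ?_
    rw [div_eq_mul_inv, ← Real.exp_neg, neg_mul]
  have h2 := (h1.comp tendsto_natCast_atTop_atTop).eventually (gt_mem_nhds one_pos)
  obtain ⟨n, hn, hn'⟩ := (h.and h2).exists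
  refine ⟨n, ?_⟩
  have h3 : (n : ℝ) ^ r < (2 : ℝ) ^ n := by
    have h4 : (n : ℝ) ^ r / Real.exp (Real.log 2 * n) < 1 := hn'
    rw [div_lt_one (Real.exp_pos _)] at h4
    rwa [mul_comm, Real.exp_nat_mul, Real.exp_log two_pos] at h4
  exact_mod_cast hn.trans_lt h3

end Pool.Agent.QD.H86
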